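import Mathlib

namespace Pool.Agent.H.MP_95a718_co

open Finset SimpleGraph

variable {V : Type} {G : SimpleGraph V}

/-- `f 0, …, f k` is a path. -/
structure Pa (G : SimpleGraph V) (f : ℕ → V) (k : ℕ) : Prop where
  inj : ∀ s t, s ≤ k → t ≤ k → f s = f t → s = t
  adj : ∀ s < k, G.Adj (f s) (f (s + 1))

lemma Pa.walk {k : ℕ} : ∀ {f : ℕ → V}, Pa G f k →
    ∃ p : G.Walk (f 0) (f k), p.IsPath ∧ ∀ x, x ∈ p.support ↔ ∃ i ≤ k, f i = x := by
  induction k with
  | zero => intro f _; exact ⟨Walk.nil, by simp, by simp [eq_comm]⟩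
  | succ k ih =>
    intro f h
    obtain ⟨p, h1, h2⟩ := ih (f := fun i => f (i + 1))
      ⟨fun s t hs ht e => by have := h.inj _ _ (by omega) (by omega) e; omega,
        fun s hs => h.adj _ (by omega)⟩
    refine ⟨Walk.cons (h.adj 0 (by omega)) p, h1.cons ?_, fun x => ?_⟩
    · rw [h2]
      rintro ⟨i, hi, e⟩
      have := h.inj _ _ (by omega) (by omega) e
      omega
    · rw [Walk.support_cons, List.mem_cons, h2]
      constructor
      · rintro (rfl | ⟨i, hi, rfl⟩)
        · exact ⟨0, by omega, rfl⟩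
        · exact ⟨i + 1, by omega, rfl⟩
      · rintro ⟨i, hi, rfl⟩
        rcases i with _ | i
        · left; rfl
        · right; exact ⟨i, by omega, rfl⟩

lemma exists_long [Fintype V] [Nonempty V] :
    ∃ f k, Pa G f k ∧ ∀ g, ¬ Pa G g (k + 1) := by
  by_contra hc
  push Not at hc
  have : ∀ k, ∃ f, Pa G f k := fun k => by
    induction k with
    | zero => exact ⟨fun _ => Classical.arbitrary V, fun s t _ _ _ => by omega, by simp⟩
    | succ k ih => obtain ⟨f, hf⟩ := ih; exact hc f k hf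
  obtain ⟨f, hf⟩ := this (Fintype.card V)
  have := card_le_card_of_injOn (s := range (Fintype.card V + 1)) (t := univ) f (by simp)
    fun s hs t ht e => hf.inj s t (by simpa [Nat.lt_succ_iff] using hs)
      (by simpa [Nat.lt_succ_iff] using ht) e
  simp at this

variable {f : ℕ → V} {k : ℕ}

lemma Pa.ext (h : Pa G f k) (hl : ∀ g, ¬ Pa G g (k + 1)) {x : V} (hx : ∀ i ≤ k, f i ≠ x) :
    ¬ G.Adj x (f 0) := fun ha => by
  refine hl (fun i => if i = 0 then x else f (i - 1)) ⟨fun s t hs ht e => ?_, fun s hs => ?_⟩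
  · split_ifs at e with a b b
    · omega
    · exact absurd e.symm (hx _ (by omega))
    · exact absurd e (hx _ (by omega))
    · have := h.inj _ _ (by omega) (by omega) e; omega
  · rw [if_neg (Nat.succ_ne_zero s)]
    split_ifs with a
    · subst a; exact ha
    · have := h.adj (s - 1) (by omega)
      rwa [show s - 1 + 1 = s + 1 - 1 by omega] at this

lemma Pa.rev (h : Pa G f k) : Pa G (fun i => f (k - i)) k :=
  ⟨fun s t hs ht e => by have := h.inj _ _ (by omega) (by omega) e; omega, fun s hs => by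
    have := (h.adj (k - (s + 1)) (by omega)).symm
    rwa [show k - (s + 1) + 1 = k - s by omega] at this⟩

lemma Pa.rot (h : Pa G f k) {i : ℕ} (h1 : 1 ≤ i) (h2 : i ≤ k) (ha : G.Adj (f 0) (f i)) :
    Pa G (fun t => f (if t < i then i - 1 - t else t)) k := by
  refine ⟨fun s t hs ht e => ?_, fun s hs => ?_⟩
  · have := h.inj _ _ (by split_ifs <;> omega) (by split_ifs <;> omega) e
    split_ifs at this <;> omega
  · split_ifs with a b b
    · have := (h.adj (i - 1 - (s + 1)) (by omega)).symm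
      rwa [show i - 1 - (s + 1) + 1 = i - 1 - s by omega] at this
    · rwa [show i - 1 - s = 0 by omega, show s + 1 = i by omega]
    · omega
    · exact h.adj s hs

lemma Pa.cyc (h : Pa G f k) (hl : ∀ g, ¬ Pa G g (k + 1)) {x : V} (hx : ∀ i ≤ k, f i ≠ x)
    {p : ℕ} (hp : p ≤ k) (ha : G.Adj x (f p)) : ¬ G.Adj (f k) (f 0) := fun hc => by
  have : Pa G (fun t => f (if p + t ≤ k then p + t else p + t - k - 1)) k := by
    refine ⟨fun s t hs ht e => ?_, fun s hs => ?_⟩
    · have := h.inj _ _ (by split_ifs <;> omega) (by split_ifs <;> omega) e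
      split_ifs at this <;> omega
    · split_ifs with a b b
      · exact h.adj (p + s) (by omega)
      · rwa [show p + s = k by omega, show p + (s + 1) - k - 1 = 0 by omega]
      · omega
      · have := h.adj (p + s - k - 1) (by omega)
        rwa [show p + s - k - 1 + 1 = p + (s + 1) - k - 1 by omega] at this
  exact this.ext hl (fun i hi => hx _ (by split_ifs <;> omega)) (by simpa [hp] using ha)

variable [DecidableEq V]

/-- The set induces a connected graph. -/
def Conn (G : SimpleGraph V) (T : Finset V) : Prop := (G.induce (T : Set V)).Connected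

lemma Conn.single (x : V) : Conn G {x} := by
  rw [Conn, coe_singleton]; exact Connected.of_subsingleton

lemma Conn.insert {T : Finset V} (h : Conn G T) {q y : V} (hq : q ∈ T) (ha : G.Adj q y) :
    Conn G (insert y T) := by
  have := connected_induce_union (s := (T : Set V)) (t := {y}) h.preconnected
    (Connected.of_subsingleton).preconnected hq rfl ha
  rw [Conn, coe_insert, ← Set.union_singleton]
  exact this

lemma conn_image (J : Finset ℕ) (j0 : ℕ) (h0 : j0 ∈ J)
    (h : ∀ j ∈ J, j ≠ j0 → ∃ i ∈ J, i < j ∧ G.Adj (f i) (f j)) : Conn G (J.image f) := by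
  have m : ∀ j ∈ J, f j ∈ ((J.image f : Finset V) : Set V) := fun j hj =>
    mem_coe.2 (mem_image_of_mem f hj)
  have : ∀ j (hj : j ∈ J), (G.induce ((J.image f : Finset V) : Set V)).Reachable
      ⟨f j0, m j0 h0⟩ ⟨f j, m j hj⟩ := fun j => by
    induction j using Nat.strong_induction_on with
    | _ j ih =>
      intro hj
      by_cases e : j = j0
      · subst e; rfl
      · obtain ⟨i, hi, a, b⟩ := h j hj e
        exact (ih i a hi).trans (Adj.reachable b)
  have _ : Nonempty ((J.image f : Finset V) : Set V) := ⟨⟨_, m j0 h0⟩⟩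
  refine ⟨fun a b => ?_⟩
  obtain ⟨a, ha⟩ := a
  obtain ⟨b, hb⟩ := b
  obtain ⟨i, hi, rfl⟩ := mem_image.1 (mem_coe.1 ha)
  obtain ⟨j, hj, rfl⟩ := mem_image.1 (mem_coe.1 hb)
  exact (this i hi).symm.trans (this j hj)

lemma grow {Q T : Finset V} (hQ : Conn G Q) (hs : Q ⊂ T)
    (h : ∀ Q', Q ⊆ Q' → Q' ⊂ T → ∃ y ∈ T, y ∉ Q' ∧ ∃ q ∈ Q', G.Adj q y) :
    ∃ y ∈ T, y ∉ Q ∧ Conn G (T.erase y) ∧ ∃ q ∈ T.erase y, G.Adj q y := by
  classical
  obtain ⟨Q', h1, h2⟩ := exists_max_image (T.powerset.filter fun Q' => Q ⊆ Q' ∧ Q' ⊂ T ∧ Conn G Q')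
    card ⟨Q, by simp [hs, hs.subset, hQ]⟩
  simp only [mem_filter, mem_powerset] at h1 h2
  obtain ⟨-, a, b, c⟩ := h1
  obtain ⟨y, hy, hy', q, hq, ha⟩ := h Q' a b
  have e : insert y Q' = T := by
    by_contra hne
    have s1 : insert y Q' ⊆ T := insert_subset hy b.subset
    have := h2 (insert y Q') ⟨s1, a.trans (subset_insert _ _), s1.ssubset_of_ne hne, c.insert hq ha⟩
    rw [card_insert_of_notMem hy'] at this
    omega
  have e2 : T.erase y = Q' := by rw [← e, erase_insert hy']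
  exact ⟨y, hy, fun h => hy' (a h), e2 ▸ c, q, e2 ▸ hq, ha⟩

lemma grow2 {T : Finset V} (hT : Conn G T) {c c' : V} (hc : c ∈ T) (hc' : c' ∈ T) (hne : c' ≠ c) :
    ∃ y ∈ T, y ≠ c ∧ Conn G (T.erase y) ∧ ∃ q ∈ T.erase y, G.Adj q y := by
  obtain ⟨y, h1, h2, h3⟩ := grow (T := T) (Conn.single c) (G := G)
    ((ssubset_iff_of_subset (by simpa using hc)).2 ⟨c', hc', by simpa using hne⟩)
    fun Q' a b => by
      obtain ⟨z, hz, hz'⟩ := exists_of_ssubset b
      obtain ⟨p⟩ := hT.preconnected ⟨c, hc⟩ ⟨z, hz⟩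
      obtain ⟨d, -, d1, d2⟩ := p.exists_boundary_dart {x | x.1 ∈ Q'} (a (by simp)) hz'
      exact ⟨d.snd.1, d.snd.2, d2, d.fst.1, d1, d.adj⟩
  exact ⟨y, h1, by simpa using h2, h3⟩

lemma out [Fintype V] (hG : G.Connected) {P R : Finset V} (hR : R ⊆ P) (hP : ∃ x, x ∉ P)
    (hc : Conn G (P \ R)) (hn : ∀ r ∈ R, ∀ x, x ∉ P → ¬ G.Adj x r) :
    ∃ y, y ∉ P ∧ Conn G (Rᶜ.erase y) ∧ ∃ q ∈ Rᶜ.erase y, G.Adj q y := by
  obtain ⟨x, hx⟩ := hP
  obtain ⟨y, h1, h2, h3⟩ := grow (T := Rᶜ) hc
    ((ssubset_iff_of_subset (by intro z; simp)).2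
      ⟨x, by simpa using fun h => hx (hR h), by simp [hx]⟩)
    fun Q' a b => by
      obtain ⟨z, hz, hz'⟩ := exists_of_ssubset b
      obtain ⟨⟨q, hq⟩⟩ := hc.nonempty
      obtain ⟨p⟩ := hG.preconnected z q
      obtain ⟨d, -, d1, d2⟩ := p.exists_boundary_dart {x | x ∈ Rᶜ ∧ x ∉ Q'} ⟨hz, hz'⟩
        fun h => h.2 (a hq)
      refine ⟨d.fst, d1.1, d1.2, d.snd, ?_, d.adj.symm⟩
      by_contra hh
      have e : d.snd ∈ R := by
        by_contra h2
        exact d2 ⟨by simpa using h2, hh⟩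
      exact hn _ e d.fst (fun h => d1.2 (a (mem_sdiff.2 ⟨h, by simpa using d1.1⟩))) d.adj
  refine ⟨y, fun h => h2 (mem_sdiff.2 ⟨h, by simpa using h1⟩), h3⟩

lemma cds [Nontrivial V] {T : Finset V} (hT : Conn G T) (hd : ∀ x, x ∉ T → ∃ t ∈ T, G.Adj t x) :
    ∃ F ≤ G, F.IsTree ∧ ∀ x, x ∉ T → (F.neighborSet x).ncard = 1 := by
  choose! par h1 h2 using hd
  let H : SimpleGraph V :=
    { Adj := fun u v => G.Adj u v ∧ (u ∉ T → v = par u) ∧ (v ∉ T → u = par v)
      symm := ⟨fun u v h => ⟨h.1.symm, h.2.2, h.2.1⟩⟩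
      loopless := ⟨fun u h => h.1.ne rfl⟩ }
  have hH : H.Connected := by
    obtain ⟨⟨t, ht⟩⟩ := hT.nonempty
    have a1 : ∀ x ∈ T, H.Reachable t x := fun x hx =>
      (hT.preconnected ⟨t, ht⟩ ⟨x, hx⟩).map (G' := H)
        ⟨fun z => z.1, fun {a b} h =>
          show H.Adj a.1 b.1 from ⟨h, fun e => absurd a.2 e, fun e => absurd b.2 e⟩⟩
    have a2 : ∀ x, H.Reachable t x := fun x => by
      by_cases hx : x ∈ T
      · exact a1 x hx
      · exact (a1 _ (h1 x hx)).trans (Adj.reachable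
          ⟨h2 x hx, fun e => absurd (h1 x hx) e, fun _ => rfl⟩)
    exact ⟨fun a b => (a2 a).symm.trans (a2 b)⟩
  obtain ⟨F, hF, hF'⟩ := hH.exists_isTree_le
  refine ⟨F, fun u v h => (hF h).1, hF', fun x hx => ?_⟩
  obtain ⟨y, hy⟩ := hF'.connected.preconnected.exists_adj_of_nontrivial x
  rw [Set.ncard_eq_one]
  refine ⟨par x, Set.eq_singleton_iff_unique_mem.2 ⟨?_, fun z hz => (hF hz).2.1 hx⟩⟩
  rw [← (hF hy).2.1 hx]; exact hy

theorem core [Fintype V] [DecidableRel G.Adj] (hG : G.Connected) {d : ℕ}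
    (hd : ∀ u v, G.degree u < d → G.degree v < d → u = v) (h : Pa G f k)
    (hl : ∀ g, ¬ Pa G g (k + 1)) (hx : ∃ x, ∀ i ≤ k, f i ≠ x) (h0 : d ≤ G.degree (f 0)) :
    ∃ T, Conn G T ∧ (∀ x, x ∉ T → ∃ t ∈ T, G.Adj t x) ∧ d + 2 ≤ Tᶜ.card := by
  set P := (range (k + 1)).image f with hP
  have mP : ∀ x, x ∉ P ↔ ∀ i ≤ k, f i ≠ x := fun x => by simp [hP, Nat.lt_succ_iff]
  have hx' : ∃ x, x ∉ P := hx.imp fun x h => (mP x).2 h
  obtain ⟨x0, p0, b1, b2, b3⟩ : ∃ x p, (∀ i ≤ k, f i ≠ x) ∧ p ≤ k ∧ G.Adj x (f p) := by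
    obtain ⟨x, hx⟩ := hx
    obtain ⟨p⟩ := hG.preconnected x (f 0)
    obtain ⟨d, -, d1, d2⟩ := p.exists_boundary_dart {x | ∀ i ≤ k, f i ≠ x} hx
      fun h => h 0 (by omega) rfl
    simp only [Set.mem_setOf_eq, not_forall, not_not] at d2
    obtain ⟨i, hi, e⟩ := d2
    exact ⟨d.fst, i, d1, hi, e ▸ d.adj⟩
  have F0 : ∀ x, x ∉ P → ¬ G.Adj x (f 0) := fun x hx => h.ext hl ((mP x).1 hx)
  have Fk : ∀ x, x ∉ P → ¬ G.Adj x (f k) := fun x hx =>
    h.rev.ext hl fun i hi => (mP x).1 hx _ (by omega)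
  have FA : ∀ i, 1 ≤ i → i ≤ k → G.Adj (f 0) (f i) → ∀ x, x ∉ P → ¬ G.Adj x (f (i - 1)) :=
    fun i h1 h2 ha x hx => by
      have := (h.rot h1 h2 ha).ext hl (x := x) fun j hj => (mP x).1 hx _ (by split_ifs <;> omega)
      simpa [show 0 < i from h1] using this
  have C0 : ¬ G.Adj (f k) (f 0) := h.cyc hl b1 b2 b3
  have CA : ∀ i, 1 ≤ i → i ≤ k → G.Adj (f 0) (f i) → ¬ G.Adj (f k) (f (i - 1)) :=
    fun i h1 h2 ha => by
      have := (h.rot h1 h2 ha).cyc hl (x := x0) (fun j hj => b1 _ (by split_ifs <;> omega))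
        (p := if p0 < i then i - 1 - p0 else p0) (by split_ifs <;> omega) (by
          convert b3 using 2
          split_ifs <;> omega)
      simpa [show 0 < i from h1, show ¬ k < i by omega] using this
  have k2 : 2 ≤ k := by
    have a1 : p0 ≠ 0 := fun e => F0 x0 ((mP _).2 b1) (e ▸ b3)
    have a2 : p0 ≠ k := fun e => Fk x0 ((mP _).2 b1) (e ▸ b3)
    omega
  have fP : ∀ i ≤ k, f i ∈ P := fun i hi => mem_image_of_mem f (mem_range.2 (by omega))
  by_cases d1 : d ≤ 1
  · have hc : Conn G (P \ {f 0, f k}) := by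
      have : P \ {f 0, f k} = (Ico 1 k).image f := by
        ext x
        simp only [hP, mem_sdiff, mem_image, mem_range, mem_insert, mem_singleton, mem_Ico]
        constructor
        · rintro ⟨⟨i, hi, rfl⟩, a⟩
          have a1 : i ≠ 0 := fun e => a (Or.inl (by rw [e]))
          have a2 : i ≠ k := fun e => a (Or.inr (by rw [e]))
          exact ⟨i, by omega, rfl⟩
        · rintro ⟨i, hi, rfl⟩
          refine ⟨⟨i, by omega, rfl⟩, ?_⟩
          rintro (e | e) <;> have := h.inj _ _ (by omega) (by omega) e <;> omega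
      rw [this]
      refine conn_image _ 1 (by simp; omega) fun j hj e => ⟨j - 1, by simp at hj ⊢; omega,
        by simp at hj; omega, ?_⟩
      simp only [mem_Ico] at hj
      have := h.adj (j - 1) (by omega)
      rwa [show j - 1 + 1 = j by omega] at this
    obtain ⟨y, y1, y2, y3⟩ := out hG (P := P) (R := {f 0, f k})
      (by intro x; simp only [mem_insert, mem_singleton]; rintro (rfl | rfl) <;> exact fP _ (by omega))
      hx' hc (by simp only [mem_insert, mem_singleton]; rintro _ (rfl | rfl) <;> assumption)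
    have m : ∀ i, 1 ≤ i → i < k → f i ∈ ({f 0, f k} : Finset V)ᶜ.erase y := fun i a b => by
      simp only [mem_erase, mem_compl, mem_insert, mem_singleton]
      refine ⟨(mP y).1 y1 i (by omega), ?_⟩
      rintro (e | e) <;> have := h.inj _ _ (by omega) (by omega) e <;> omega
    refine ⟨_, y2, fun x hx => ?_, ?_⟩
    · by_cases e : x = y
      · exact e ▸ y3
      simp only [mem_erase, mem_compl, mem_insert, mem_singleton, not_and, not_not] at hx
      rcases hx e with rfl | rfl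
      · exact ⟨f 1, m 1 le_rfl (by omega), (h.adj 0 (by omega)).symm⟩
      · refine ⟨f (k - 1), m _ (by omega) (by omega), ?_⟩
        have := h.adj (k - 1) (by omega)
        rwa [show k - 1 + 1 = k by omega] at this
    · rw [compl_erase, compl_compl, card_insert_of_notMem (by
        simp only [mem_insert, mem_singleton]
        rintro (rfl | rfl) <;> exact y1 (fP _ (by omega))), card_pair fun e => by
          have := h.inj _ _ (by omega) (by omega) e; omega]
      omega
  set I := (Icc 2 k).filter fun i => G.Adj (f 0) (f i) with hI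
  have mI : ∀ i, i ∈ I ↔ (2 ≤ i ∧ i ≤ k) ∧ G.Adj (f 0) (f i) := fun i => by simp [hI]
  set A := I.image fun i => f (i - 1) with hA
  have cA : A.card + 1 = G.degree (f 0) := by
    rw [hA, card_image_of_injOn fun s hs t ht e => by
      have a := (mI s).1 hs
      have b := (mI t).1 ht
      have := h.inj _ _ (by omega) (by omega) e
      omega]
    rw [← card_neighborFinset_eq_degree, ← card_insert_of_notMem (a := 1) (by simp [mI])]
    refine card_bij (fun i _ => f i) (fun i hi => ?_) (fun s hs t ht e => ?_) fun x hx => ?_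
    · rcases mem_insert.1 hi with rfl | hi
      · simpa using h.adj 0 (by omega)
      · simpa using ((mI i).1 hi).2
    · simp only [mem_insert, mI] at hs ht
      exact h.inj _ _ (by omega) (by omega) e
    · rw [mem_neighborFinset] at hx
      have : x ∈ P := by
        by_contra hh
        exact F0 x hh hx.symm
      obtain ⟨i, hi, rfl⟩ := mem_image.1 this
      have a1 : i ≠ 0 := fun e => hx.ne (by rw [e])
      refine ⟨i, ?_, rfl⟩
      simp only [mem_insert, mI, mem_range] at hi ⊢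
      by_cases e : i = 1
      · exact Or.inl e
      · exact Or.inr ⟨by omega, hx⟩
  have mA : ∀ x, x ∈ A ↔ ∃ i, (2 ≤ i ∧ i ≤ k) ∧ G.Adj (f 0) (f i) ∧ f (i - 1) = x := fun x => by
    simp [hA, mI, and_assoc]
  have kA : f k ∉ A := fun hh => by
    obtain ⟨i, a, -, e⟩ := (mA _).1 hh
    have := h.inj _ _ (by omega) (by omega) e
    omega
  set R := insert (f k) A with hR
  have mR : ∀ j < k, f j ∈ R → 1 ≤ j ∧ G.Adj (f 0) (f (j + 1)) := fun j hj hh => by
    rcases mem_insert.1 hh with e | hh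
    · have := h.inj _ _ (by omega) (by omega) e; omega
    · obtain ⟨i, a, b, e⟩ := (mA _).1 hh
      have := h.inj _ _ (by omega) (by omega) e
      exact ⟨by omega, by rwa [show j + 1 = i by omega]⟩
  have RP : R ⊆ P := fun x hx => by
    rcases mem_insert.1 hx with rfl | hh
    · exact fP _ le_rfl
    · obtain ⟨i, a, -, rfl⟩ := (mA _).1 hh
      exact fP _ (by omega)
  have Rn : ∀ r ∈ R, ∀ x, x ∉ P → ¬ G.Adj x r := fun r hr => by
    rcases mem_insert.1 hr with rfl | hh
    · exact Fk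
    · obtain ⟨i, a, b, rfl⟩ := (mA _).1 hh
      exact FA i (by omega) a.2 b
  have prev : ∀ j, 1 ≤ j → j ≤ k → ∃ i < j, f i ∉ R ∧ G.Adj (f i) (f j) := fun j a b => by
    by_cases e : G.Adj (f 0) (f j)
    · exact ⟨0, a, fun hh => by have := mR 0 (by omega) hh; omega, e⟩
    · have := h.adj (j - 1) (by omega)
      rw [show j - 1 + 1 = j by omega] at this
      refine ⟨j - 1, by omega, fun hh => e ?_, this⟩
      have := (mR _ (by omega) hh).2
      rwa [show j - 1 + 1 = j by omega] at this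
  have hc : Conn G (P \ R) := by
    have : P \ R = ((range (k + 1)).filter fun i => f i ∉ R).image f := by
      ext x
      simp only [hP, mem_sdiff, mem_image, mem_filter]
      exact ⟨fun ⟨⟨i, hi, e⟩, a⟩ => ⟨i, ⟨hi, e ▸ a⟩, e⟩, fun ⟨i, ⟨hi, a⟩, e⟩ => ⟨⟨i, hi, e⟩, e ▸ a⟩⟩
    rw [this]
    refine conn_image _ 0 (by
      simp only [mem_filter, mem_range]
      exact ⟨by omega, fun hh => by have := mR 0 (by omega) hh; omega⟩) fun j hj e => ?_
    simp only [mem_filter, mem_range] at hj ⊢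
    obtain ⟨i, a, b, c⟩ := prev j (by omega) (by omega)
    exact ⟨i, ⟨by omega, b⟩, a, c⟩
  obtain ⟨y, y1, y2, y3⟩ := out hG RP hx' hc Rn
  set T := Rᶜ.erase y with hT
  have mT : ∀ i ≤ k, f i ∉ R → f i ∈ T := fun i a b =>
    mem_erase.2 ⟨(mP y).1 y1 i a, mem_compl.2 b⟩
  have cT : Tᶜ = insert y R := by rw [hT, compl_erase, compl_compl]
  have nT : ∀ x, x ∉ T → x = y ∨ x = f k ∨ x ∈ A := fun x hx => by
    simpa [cT, hR] using mem_compl.2 hx
  have dom : ∀ x, x ∉ T → ∃ t ∈ T, G.Adj t x := fun x hx => by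
    rcases nT x hx with rfl | rfl | hh
    · exact y3
    · obtain ⟨i, a, b, c⟩ := prev k (by omega) le_rfl
      exact ⟨_, mT i (by omega) b, c⟩
    · obtain ⟨j, a, -, rfl⟩ := (mA _).1 hh
      obtain ⟨i, a, b, c⟩ := prev (j - 1) (by omega) (by omega)
      exact ⟨_, mT i (by omega) b, c⟩
  have cc : Tᶜ.card = G.degree (f 0) + 1 := by
    rw [cT, card_insert_of_notMem fun hh => y1 (RP hh), card_insert_of_notMem kA, cA]
  rcases lt_or_eq_of_le h0 with h0 | h0
  · exact ⟨T, y2, dom, by omega⟩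
  have t0 : f 0 ∈ T := mT 0 (by omega) fun hh => by have := mR 0 (by omega) hh; omega
  have t1 : f (k - 1) ∈ T := mT _ (by omega) fun hh => by
    have := (mR _ (by omega) hh).2
    rw [show k - 1 + 1 = k by omega] at this
    exact C0 this.symm
  obtain ⟨c, c1, c2⟩ : ∃ c ∈ T, ∀ x, x ∉ T → G.degree x < d → G.Adj c x := by
    by_cases e : ∃ x, x ∉ T ∧ G.degree x < d
    · obtain ⟨x, a, b⟩ := e
      obtain ⟨t, a1, a2⟩ := dom x a
      exact ⟨t, a1, fun z _ hz => hd x z b hz ▸ a2⟩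
    · exact ⟨f 0, t0, fun x a b => absurd ⟨x, a, b⟩ e⟩
  obtain ⟨c', c3, c4⟩ : ∃ c' ∈ T, c' ≠ c := by
    by_cases e : f 0 = c
    · exact ⟨_, t1, fun e' => by
        have := h.inj _ _ (by omega) (by omega) (e'.trans e.symm); omega⟩
    · exact ⟨_, t0, e⟩
  obtain ⟨s, s1, s2, s3, s4⟩ := grow2 y2 c1 c3 c4
  refine ⟨_, s3, fun x hx => ?_, ?_⟩
  · by_cases e : x = s
    · exact e ▸ s4
    have xT : x ∉ T := fun hh => hx (mem_erase.2 ⟨e, hh⟩)
    by_cases lo : G.degree x < d
    · exact ⟨c, mem_erase.2 ⟨s2.symm, c1⟩, c2 x xT lo⟩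
    by_contra hh
    push Not at hh
    have key : ∀ z, G.Adj x z → z = s ∨ z = y ∨ z = f k ∨ z ∈ A := fun z hz => by
      by_cases e : z ∈ T
      · left
        by_contra e'
        exact hh z (mem_erase.2 ⟨e', e⟩) hz.symm
      · exact Or.inr (nT z e)
    apply lo
    rw [← card_neighborFinset_eq_degree]
    rcases nT x xT with rfl | rfl | xA
    · refine (card_le_card (t := {s}) fun z hz => ?_).trans_lt (by simp; omega)
      rw [mem_neighborFinset] at hz
      rcases key z hz with e | e | e | e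
      · simpa using e
      · exact absurd e.symm hz.ne
      · exact absurd (e ▸ hz) (Fk _ y1)
      · exact absurd hz (Rn z (mem_insert_of_mem e) _ y1)
    · refine (card_le_card (t := {s}) fun z hz => ?_).trans_lt (by simp; omega)
      rw [mem_neighborFinset] at hz
      rcases key z hz with e | e | e | e
      · simpa using e
      · exact absurd (e ▸ hz.symm) (Fk _ y1)
      · exact absurd e.symm hz.ne
      · obtain ⟨i, a, b, rfl⟩ := (mA _).1 e
        exact absurd hz (CA i (by omega) a.2 b)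
    · refine (card_le_card (t := insert s (A.erase x)) fun z hz => ?_).trans_lt ?_
      · rw [mem_neighborFinset] at hz
        rcases key z hz with e | e | e | e
        · simp [e]
        · exact absurd (e ▸ hz.symm) (Rn x (mem_insert_of_mem xA) _ y1)
        · obtain ⟨i, a, b, e'⟩ := (mA _).1 xA
          exact absurd (e' ▸ e ▸ hz.symm) (CA i (by omega) a.2 b)
        · exact mem_insert_of_mem (mem_erase.2 ⟨hz.ne.symm, e⟩)
      · have a1 := card_insert_le s (A.erase x)
        have a2 := card_erase_of_mem xA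
        have a3 := card_pos.2 ⟨x, xA⟩
        omega
  · rw [compl_erase, card_insert_of_notMem (by simpa using s1)]
    omega

end Pool.Agent.H.MP_95a718_co
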